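import Pool.Agent.H486.LP.Stm

set_option autoImplicit false

open UpperHalfPlane MeasureTheory Metric ModularGroup CongruenceSubgroup
open scoped MatrixGroups ENNReal Modular Topology NNReal ComplexConjugate Real

namespace Pool.Agent.H115.LP

open Pool.Agent.H486.LP

theorem two_cosh (δ : SL(2, ℝ)) (z : ℍ) : 2 * Real.cosh (dist (δ • z) z) =
    (δ 0 0 - δ 1 0 * z.re) ^ 2 + (δ 1 0 * z.re + δ 1 1) ^ 2 +
    (δ 1 0 * z.im) ^ 2 +
    ((δ 0 1 + (δ 0 0 - δ 1 1) * z.re - δ 1 0 * z.re ^ 2) / z.im) ^ 2 := by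
  have hdet := Matrix.SpecialLinearGroup.det_coe δ
  rw [Matrix.det_fin_two] at hdet
  have hco0 := coe_specialLinearGroup_apply (δ : SL(2, ℝ)) z
  simp only [Algebra.algebraMap_self, RingHom.id_apply] at hco0
  obtain ⟨a, ha⟩ : ∃ a : ℝ, a = δ 0 0 := ⟨_, rfl⟩
  obtain ⟨b, hb⟩ : ∃ b : ℝ, b = δ 0 1 := ⟨_, rfl⟩
  obtain ⟨c, hc⟩ : ∃ c : ℝ, c = δ 1 0 := ⟨_, rfl⟩
  obtain ⟨d, hd⟩ : ∃ d : ℝ, d = δ 1 1 := ⟨_, rfl⟩
  rw [← ha, ← hb, ← hc, ← hd] at hco0 hdet ⊢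
  obtain ⟨x, hx⟩ : ∃ x : ℝ, x = z.re := ⟨_, rfl⟩
  obtain ⟨y, hy⟩ : ∃ y : ℝ, y = z.im := ⟨_, rfl⟩
  have hy0 : 0 < y := by rw [hy]; exact z.im_pos
  have hz : (z : ℂ) = x + y * Complex.I := by
    rw [hx, hy]
    apply Complex.ext <;> simp
  rw [← hx, ← hy, cosh_dist]
  have hden : Complex.normSq ((c : ℂ) * z + (d : ℂ)) = (c * x + d) ^ 2 + (c * y) ^ 2 := by
    rw [hz, Complex.normSq_apply]
    simp
    ring
  have hpos : 0 < (c * x + d) ^ 2 + (c * y) ^ 2 := by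
    by_contra hcon
    push Not at hcon
    have h1 : (c * y) ^ 2 = 0 := by
      nlinarith [sq_nonneg (c * x + d), sq_nonneg (c * y)]
    have h2 : (c * x + d) ^ 2 = 0 := by
      nlinarith [sq_nonneg (c * x + d), sq_nonneg (c * y)]
    have h3 : c = 0 := by
      rcases mul_eq_zero.1 (pow_eq_zero_iff (two_ne_zero) |>.1 h1) with h | h
      · exact h
      · exact absurd h hy0.ne'
    have h4 : d = 0 := by
      have := pow_eq_zero_iff (two_ne_zero) |>.1 h2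
      rw [h3, zero_mul, zero_add] at this
      exact this
    rw [h3, h4] at hdet
    norm_num at hdet
  have hne : (c : ℂ) * z + (d : ℂ) ≠ 0 := by
    intro h
    rw [h, map_zero] at hden
    linarith
  have hSne := hpos.ne'
  have hcoe : ((δ • z : ℍ) : ℂ) = ((a : ℂ) * z + b) / ((c : ℂ) * z + d) := hco0
  have him : (δ • z).im = y / ((c * x + d) ^ 2 + (c * y) ^ 2) := by
    have e0 : (δ • z).im = ((δ • z : ℍ) : ℂ).im := rfl
    rw [e0, hcoe, Complex.div_im, hden, hz]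
    simp only [Complex.add_im, Complex.mul_im, Complex.ofReal_im, Complex.ofReal_re, Complex.add_re,
      Complex.mul_re, Complex.I_im, Complex.I_re, mul_zero, mul_one, zero_mul, add_zero, zero_add,
      sub_zero]
    rw [← sub_div]
    congr 1
    linear_combination y * hdet
  have hdist : dist ((δ • z : ℍ) : ℂ) (z : ℂ) ^ 2 =
      ((b + (a - d) * x - c * x ^ 2 + c * y ^ 2) ^ 2 +
        (y * ((a - c * x) - (c * x + d))) ^ 2) /
        ((c * x + d) ^ 2 + (c * y) ^ 2) := by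
    have e1 : ((δ • z : ℍ) : ℂ) - (z : ℂ) =
        (((b + (a - d) * x - c * x ^ 2 + c * y ^ 2 : ℝ) : ℂ) +
          ((y * ((a - c * x) - (c * x + d)) : ℝ) : ℂ) * Complex.I) /
          ((c : ℂ) * z + d) := by
      rw [hcoe, div_sub' hne]
      congr 1
      rw [hz]
      push_cast
      linear_combination (-(c : ℂ) * (y : ℂ) ^ 2) * Complex.I_mul_I
    rw [Complex.dist_eq, e1, Complex.sq_norm, map_div₀, hden, Complex.normSq_add_mul_I]
  rw [hdist, him]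
  have hy' : z.im = y := hy.symm
  rw [hy']
  have hyne := hy0.ne'
  set S : ℝ := (c * x + d) ^ 2 + (c * y) ^ 2 with hS
  have e2 : ((b + (a - d) * x - c * x ^ 2 + c * y ^ 2) ^ 2 +
        (y * ((a - c * x) - (c * x + d))) ^ 2) / S / (2 * (y / S) * y) =
      ((b + (a - d) * x - c * x ^ 2 + c * y ^ 2) ^ 2 +
        (y * ((a - c * x) - (c * x + d))) ^ 2) / (2 * y ^ 2) := by
    field_simp
  rw [e2]
  have e3 : 2 * (1 + ((b + (a - d) * x - c * x ^ 2 + c * y ^ 2) ^ 2 +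
        (y * ((a - c * x) - (c * x + d))) ^ 2) / (2 * y ^ 2)) =
      2 * (a * d - b * c) + ((b + (a - d) * x - c * x ^ 2 + c * y ^ 2) ^ 2 +
        (y * ((a - c * x) - (c * x + d))) ^ 2) / y ^ 2 := by
    rw [hdet]
    field_simp
  rw [e3]
  field_simp
  ring

theorem real_box (a b c d x y : ℝ) (hy0 : 0 < y) (h3 : |x| ≤ 1 / 2)
    (h2 : 3 ≤ 4 * y ^ 2)
    (hE2 : (a - c * x) ^ 2 + (c * x + d) ^ 2 + (c * y) ^ 2 +
      ((b + (a - d) * x - c * x ^ 2) / y) ^ 2 ≤ 4) :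
    |a| ≤ 4 ∧ |d| ≤ 4 ∧ |c| * y ≤ 2 ∧ |b| ≤ 8 * y := by
  obtain ⟨A, hA⟩ : ∃ A : ℝ, A = a - c * x := ⟨_, rfl⟩
  obtain ⟨D, hD⟩ : ∃ D : ℝ, D = c * x + d := ⟨_, rfl⟩
  obtain ⟨G, hG⟩ : ∃ G : ℝ, G = c * y := ⟨_, rfl⟩
  obtain ⟨B, hB⟩ : ∃ B : ℝ, B = b + (a - d) * x - c * x ^ 2 := ⟨_, rfl⟩
  rw [← hA, ← hD, ← hG, ← hB] at hE2
  have n1 := sq_nonneg A
  have n2 := sq_nonneg D
  have n3 := sq_nonneg G
  have n4 := sq_nonneg (B / y)
  have hy1 : 433 / 500 ≤ y := by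
    by_contra hcon
    push Not at hcon
    have : y ^ 2 ≤ (433 / 500) ^ 2 := pow_le_pow_left₀ hy0.le hcon.le 2
    norm_num at this
    linarith
  have sq_le : ∀ u : ℝ, u ^ 2 ≤ 4 → |u| ≤ 2 := by
    intro u hu
    have h5 : u ^ 2 ≤ 2 ^ 2 := by linarith
    exact abs_le_of_sq_le_sq h5 (by norm_num)
  have k1 : |A| ≤ 2 := sq_le _ (by linarith)
  have k2 : |D| ≤ 2 := sq_le _ (by linarith)
  have k3 : |G| ≤ 2 := sq_le _ (by linarith)
  have k4 : |B / y| ≤ 2 := sq_le _ (by linarith)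
  rw [hG, abs_mul, abs_of_pos hy0] at k3
  rw [abs_div, abs_of_pos hy0, div_le_iff₀ hy0] at k4
  have hc0 := abs_nonneg c
  have hx0 := abs_nonneg x
  have k5 : |c| ≤ 12 / 5 := by
    have h6 : |c| * (433 / 500) ≤ |c| * y := mul_le_mul_of_nonneg_left hy1 hc0
    linarith
  have k6 : |c * x| ≤ 6 / 5 := by
    rw [abs_mul]
    have h6 : |c| * |x| ≤ (12 / 5) * (1 / 2) := mul_le_mul k5 h3 hx0 (by positivity)
    linarith
  have k7 : |a| ≤ 16 / 5 := by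
    have e : a = A + c * x := by rw [hA]; ring
    rw [e]
    exact (abs_add_le _ _).trans (by linarith)
  have k8 : |d| ≤ 16 / 5 := by
    have e : d = D - c * x := by rw [hD]; ring
    rw [e]
    exact (abs_sub _ _).trans (by linarith)
  refine ⟨by linarith, by linarith, by linarith, ?_⟩
  have k9 : |(a - d) * x| ≤ 16 / 5 := by
    rw [abs_mul]
    have e := abs_sub a d
    have h6 : |a - d| * |x| ≤ (32 / 5) * (1 / 2) :=
      mul_le_mul (by linarith) h3 hx0 (by positivity)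
    linarith
  have k10 : |c * x ^ 2| ≤ 3 / 5 := by
    have e : c * x ^ 2 = (c * x) * x := by ring
    rw [e, abs_mul]
    have h6 : |c * x| * |x| ≤ (6 / 5) * (1 / 2) := mul_le_mul k6 h3 hx0 (by positivity)
    linarith
  have k11 : |b| ≤ 2 * y + 16 / 5 + 3 / 5 := by
    have e : b = B - (a - d) * x + c * x ^ 2 := by rw [hB]; ring
    rw [e]
    refine (abs_add_le _ _).trans ?_
    exact add_le_add ((abs_sub _ _).trans (add_le_add k4 k9)) k10
  linarith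

theorem two_cosh_le (t : ℝ) (h0 : 0 ≤ t) (h1 : t ≤ 1) : 2 * Real.cosh t ≤ 4 := by
  have h2 : Real.cosh t ≤ Real.cosh 1 := by
    rw [Real.cosh_le_cosh, abs_of_nonneg h0, abs_one]
    exact h1
  have h3 : 2 * Real.cosh 1 ≤ 4 := by
    rw [Real.cosh_eq]
    have e1 := Real.exp_one_lt_d9
    have e2 : Real.exp (-1) ≤ 1 := by
      rw [Real.exp_le_one_iff]
      norm_num
    linarith
  linarith

theorem p15 : S_boxQ := by
  intro Q hQ E hE z hz hd
  have hQ0 : (0 : ℝ) < Q := by exact_mod_cast hQ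
  have h1 := two_cosh (sQ Q E) z
  have h2 := two_cosh_le _ dist_nonneg hd
  rw [h1] at h2
  have h3 := real_box _ _ _ _ z.re z.im z.im_pos hz.2 (three_le_four_mul_im_sq_of_mem_fd hz) h2
  have h4 : ∀ i j, (sQ Q E) i j = (Q : ℝ)⁻¹ * (E i j : ℝ) := by
    intro i j
    unfold sQ
    rw [dif_pos ⟨hQ, hE⟩]
    rfl
  rw [h4, h4, h4, h4] at h3
  have h5 : ∀ e : ℝ, |(Q : ℝ)⁻¹ * e| = |e| / Q := by
    intro e
    rw [abs_mul, abs_of_pos (inv_pos.2 hQ0), inv_mul_eq_div]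
  rw [h5, h5, h5, h5] at h3
  obtain ⟨k1, k2, k3, k4⟩ := h3
  rw [div_le_iff₀ hQ0] at k1 k2 k4
  rw [div_mul_eq_mul_div, div_le_iff₀ hQ0] at k3
  refine ⟨k1, k2, k3, ?_⟩
  linarith [k4, mul_right_comm (8 : ℝ) z.im (Q : ℝ)]

end Pool.Agent.H115.LP
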